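import Pool.Agent.H99.LU.CStmts

/-!
Project LU, part C, module DEC: restriction to a special subgroup.
-/

set_option autoImplicit false
set_option linter.unusedSectionVars false

open scoped BigOperators Topology
open Filter Pool.H3.L2

noncomputable section

namespace Pool.LU

section decAbs

variable (F : Type) [Field F] {V : Type} [Fintype V] [DecidableEq V] (o : V → ℕ) (B : Set V)
  {X X' O : Type} (e : O × X' ≃ X)

open Classical in
/-- The extension by zero of a family of chains. -/
def decExt : (O → Finset {u // u ∈ B} → X' → F) →ₗ[F] (Finset V → X → F) where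
  toFun y := fun σ x => if ∀ v ∈ σ, v ∈ B then
    y (e.symm x).1 (σ.subtype (fun v => v ∈ B)) (e.symm x).2 else 0
  map_add' := by
    intro y y'
    funext σ x
    by_cases h : ∀ v ∈ σ, v ∈ B
    · simp only [if_pos h, Pi.add_apply]
    · simp only [if_neg h, Pi.add_apply, add_zero]
  map_smul' := by
    intro c y
    funext σ x
    by_cases h : ∀ v ∈ σ, v ∈ B
    · simp only [if_pos h, Pi.smul_apply, RingHom.id_apply]
    · simp only [if_neg h, Pi.smul_apply, smul_zero]

/-- the image of a set of vertices of `B` -/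
abbrev decI (B : Set V) (τ : Finset {u // u ∈ B}) : Finset V :=
  τ.map (Function.Embedding.subtype (fun u => u ∈ B))

theorem decI_mem (τ : Finset {u // u ∈ B}) (v : V) (hv : v ∈ decI B τ) : v ∈ B := by
  obtain ⟨w, _, rfl⟩ := Finset.mem_map.1 hv
  exact w.2

theorem decI_subtype (τ : Finset {u // u ∈ B}) [DecidablePred (fun v => v ∈ B)] :
    (decI B τ).subtype (fun v => v ∈ B) = τ := by
  ext v
  rw [Finset.mem_subtype, Finset.mem_map]
  constructor
  · rintro ⟨w, hw, hwv⟩
    have : w = v := Subtype.ext hwv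
    rwa [← this]
  · intro hv
    exact ⟨v, hv, rfl⟩

theorem decExt_map (y : O → Finset {u // u ∈ B} → X' → F) (τ : Finset {u // u ∈ B}) (x : X) :
    decExt F B e y (decI B τ) x = y (e.symm x).1 τ (e.symm x).2 := by
  classical
  show (if ∀ v ∈ decI B τ, v ∈ B then
    y (e.symm x).1 ((decI B τ).subtype (fun v => v ∈ B)) (e.symm x).2 else 0) = _
  rw [if_pos (decI_mem B τ), decI_subtype]

theorem decExt_map' (y : O → Finset {u // u ∈ B} → X' → F) (τ : Finset {u // u ∈ B}) (i : O)
    (x : X') : decExt F B e y (decI B τ) (e (i, x)) = y i τ x := by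
  rw [decExt_map, Equiv.symm_apply_apply]

theorem decExt_out (y : O → Finset {u // u ∈ B} → X' → F) (σ : Finset V)
    (h : ¬ ∀ v ∈ σ, v ∈ B) (x : X) : decExt F B e y σ x = 0 := by
  classical
  show (if ∀ v ∈ σ, v ∈ B then
    y (e.symm x).1 (σ.subtype (fun v => v ∈ B)) (e.symm x).2 else 0) = _
  rw [if_neg h]

theorem decI_exists (σ : Finset V) (h : ∀ v ∈ σ, v ∈ B) :
    ∃ τ : Finset {u // u ∈ B}, σ = decI B τ := by
  classical
  refine ⟨σ.subtype (fun v => v ∈ B), ?_⟩
  exact (Finset.subtype_map_of_mem h).symm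

theorem decExt_inj : Function.Injective (decExt F B e) := by
  intro y y' h
  funext i τ x
  rw [← decExt_map' F B e y τ i x, ← decExt_map' F B e y' τ i x, h]

variable [Fintype {u // u ∈ B}]

theorem dec_sg (v : {u // u ∈ B}) (τ : Finset {u // u ∈ B}) :
    sg o v.1 (decI B τ) = sg (fun u : {u // u ∈ B} => o u.1) v τ := by
  unfold sg
  rw [Finset.filter_map, Finset.card_map]
  rfl

theorem dec_insert (v : {u // u ∈ B}) (τ : Finset {u // u ∈ B}) :
    insert v.1 (decI B τ) = decI B (insert v τ) := by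
  rw [decI, decI, Finset.map_insert]
  rfl

theorem dec_bd (y : O → Finset {u // u ∈ B} → X' → F) :
    bd F o X (decExt F B e y) =
      decExt F B e (fun i => bd F (fun u : {u // u ∈ B} => o u.1) X' (y i)) := by
  funext σ x
  rw [bd_apply]
  by_cases h : ∀ v ∈ σ, v ∈ B
  · obtain ⟨τ, rfl⟩ := decI_exists B σ h
    rw [decExt_map, bd_apply]
    have h1 : decI B (Finset.univ \ τ) ⊆ Finset.univ \ decI B τ := by
      intro v hv
      obtain ⟨w, hw, rfl⟩ := Finset.mem_map.1 hv
      rw [Finset.mem_sdiff] at hw ⊢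
      refine ⟨Finset.mem_univ _, fun h2 => hw.2 ?_⟩
      obtain ⟨w', hw', h3⟩ := Finset.mem_map.1 h2
      have : w' = w := Subtype.ext h3
      rwa [← this]
    rw [← Finset.sum_subset h1, Finset.sum_map]
    · refine Finset.sum_congr rfl fun v _ => ?_
      show (sg o v.1 (decI B τ) : F) * decExt F B e y (insert v.1 (decI B τ)) x = _
      rw [dec_sg, dec_insert, decExt_map]
    · intro v hv hv'
      rw [decExt_out, mul_zero]
      intro h2
      have hvB : v ∈ B := h2 v (Finset.mem_insert_self _ _)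
      apply hv'
      rw [Finset.mem_map]
      refine ⟨⟨v, hvB⟩, ?_, rfl⟩
      rw [Finset.mem_sdiff] at hv ⊢
      exact ⟨Finset.mem_univ _, fun h3 => hv.2 (Finset.mem_map.2 ⟨⟨v, hvB⟩, h3, rfl⟩)⟩
  · rw [decExt_out _ _ _ _ _ h]
    refine Finset.sum_eq_zero fun v _ => ?_
    rw [decExt_out, mul_zero]
    intro h2
    exact h fun w hw => h2 w (Finset.mem_insert_of_mem hw)

/-- the subspace of the extensions of the families of elements of `S` -/
def decSub (S : Submodule F (Finset {u // u ∈ B} → X' → F)) : Submodule F (Finset V → X → F) :=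
  LinearMap.range (decExt F B e ∘ₗ S.subtype.compLeft O)

theorem mem_decSub (S : Submodule F (Finset {u // u ∈ B} → X' → F)) (z : Finset V → X → F) :
    z ∈ decSub F B e S ↔ ∃ y : O → Finset {u // u ∈ B} → X' → F,
      (∀ i, y i ∈ S) ∧ decExt F B e y = z := by
  constructor
  · rintro ⟨y, rfl⟩
    exact ⟨fun i => (y i : Finset {u // u ∈ B} → X' → F), fun i => (y i).2, rfl⟩
  · rintro ⟨y, hy, rfl⟩
    exact ⟨fun i => ⟨y i, hy i⟩, rfl⟩

theorem finrank_decSub [Fintype O] [Finite X'] (S : Submodule F (Finset {u // u ∈ B} → X' → F)) :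
    Module.finrank F ↥(decSub F B e S) = Fintype.card O * Module.finrank F ↥S := by
  have h1 : Function.Injective (decExt F B e ∘ₗ S.subtype.compLeft O) := by
    intro y y' h
    have h2 := decExt_inj F B e h
    funext i
    exact Subtype.ext (congrFun h2 i)
  rw [decSub, LinearMap.finrank_range_of_inj h1, Module.finrank_pi_fintype]
  rw [Finset.sum_const, Finset.card_univ, smul_eq_mul]

variable (adj : V → V → Prop) (ρ : V → X → X) (ρ' : {u // u ∈ B} → X' → X')

theorem dec_Ch (hρ : ∀ (u : {u // u ∈ B}) (i : O) (x : X'), ρ u.1 (e (i, x)) = e (i, ρ' u x))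
    (A : Set V) (hA : A ⊆ B) (k : ℕ) :
    Ch F adj ρ A k =
      decSub F B e (Ch F (fun a b : {u // u ∈ B} => adj a.1 b.1) ρ' (Subtype.val ⁻¹' A) k) := by
  apply le_antisymm
  · rintro z ⟨h1, h2⟩
    rw [mem_decSub]
    refine ⟨fun i τ x => z (decI B τ) (e (i, x)), fun i => ⟨?_, ?_⟩, ?_⟩
    · intro τ hτ
      have h3 : z (decI B τ) ≠ 0 := by
        intro h4
        apply hτ
        funext x
        show z (decI B τ) (e (i, x)) = 0
        rw [h4]
        rfl
      obtain ⟨h4, h5, h6⟩ := h1 _ h3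
      refine ⟨?_, ?_, ?_⟩
      · rwa [Finset.card_map] at h4
      · intro v hv
        exact h5 v.1 (Finset.mem_map.2 ⟨v, hv, rfl⟩)
      · intro u hu v hv huv
        exact h6 u.1 (Finset.mem_map.2 ⟨u, hu, rfl⟩) v.1 (Finset.mem_map.2 ⟨v, hv, rfl⟩)
          fun h => huv (Subtype.ext h)
    · intro τ v hv x
      show z (decI B τ) (e (i, ρ' v x)) = - z (decI B τ) (e (i, x))
      rw [← hρ]
      exact h2 _ _ (Finset.mem_map.2 ⟨v, hv, rfl⟩) _
    · funext σ x
      by_cases h : ∀ v ∈ σ, v ∈ B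
      · obtain ⟨τ, rfl⟩ := decI_exists B σ h
        rw [decExt_map]
        show z (decI B τ) (e ((e.symm x).1, (e.symm x).2)) = _
        rw [Prod.mk.eta, Equiv.apply_symm_apply]
      · rw [decExt_out _ _ _ _ _ h]
        by_contra h3
        have h4 : z σ ≠ 0 := by
          intro h5
          apply h3
          rw [h5]
          rfl
        exact h fun v hv => hA ((h1 σ h4).2.1 v hv)
  · intro z hz
    obtain ⟨y, hy, rfl⟩ := (mem_decSub F B e _ z).1 hz
    refine ⟨?_, ?_⟩
    · intro σ hσ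
      by_cases h : ∀ v ∈ σ, v ∈ B
      · obtain ⟨τ, rfl⟩ := decI_exists B σ h
        obtain ⟨x, hx⟩ := Function.ne_iff.1 hσ
        rw [decExt_map, Pi.zero_apply] at hx
        have h3 : y (e.symm x).1 τ ≠ 0 := by
          intro h4
          apply hx
          rw [h4]
          rfl
        obtain ⟨h4, h5, h6⟩ := (hy (e.symm x).1).1 τ h3
        refine ⟨?_, ?_, ?_⟩
        · rwa [Finset.card_map]
        · intro v hv
          obtain ⟨w, hw, rfl⟩ := Finset.mem_map.1 hv
          exact h5 w hw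
        · intro u hu v hv huv
          obtain ⟨u', hu', rfl⟩ := Finset.mem_map.1 hu
          obtain ⟨v', hv', rfl⟩ := Finset.mem_map.1 hv
          exact h6 u' hu' v' hv' fun h => huv (congrArg _ h)
      · exfalso
        apply hσ
        funext x
        exact decExt_out F B e y σ h x
    · intro σ v hv x
      by_cases h : ∀ v ∈ σ, v ∈ B
      · obtain ⟨τ, rfl⟩ := decI_exists B σ h
        obtain ⟨w, hw, rfl⟩ := Finset.mem_map.1 hv
        obtain ⟨⟨i, x'⟩, rfl⟩ := e.surjective x
        show decExt F B e y (decI B τ) (ρ w.1 (e (i, x'))) = _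
        rw [hρ, decExt_map', decExt_map']
        exact (hy i).2 τ w hw x'
      · rw [decExt_out _ _ _ _ _ h, decExt_out _ _ _ _ _ h, neg_zero]

theorem dec_ker (S : Submodule F (Finset {u // u ∈ B} → X' → F)) :
    decSub F B e S ⊓ LinearMap.ker (bd F o X) =
      decSub F B e (S ⊓ LinearMap.ker (bd F (fun u : {u // u ∈ B} => o u.1) X')) := by
  ext z
  rw [Submodule.mem_inf, mem_decSub, mem_decSub, LinearMap.mem_ker]
  constructor
  · rintro ⟨⟨y, hy, rfl⟩, h⟩
    refine ⟨y, fun i => ⟨hy i, ?_⟩, rfl⟩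
    rw [dec_bd] at h
    have h2 : decExt F B e (fun i => bd F (fun u : {u // u ∈ B} => o u.1) X' (y i)) =
        decExt F B e 0 := by rw [h, map_zero]
    exact congrFun (decExt_inj F B e h2) i
  · rintro ⟨y, hy, rfl⟩
    refine ⟨⟨y, fun i => (hy i).1, rfl⟩, ?_⟩
    rw [dec_bd]
    have h2 : (fun i => bd F (fun u : {u // u ∈ B} => o u.1) X' (y i)) = 0 := by
      funext i
      exact (hy i).2
    rw [h2, map_zero]

theorem dec_map (S : Submodule F (Finset {u // u ∈ B} → X' → F)) :
    (decSub F B e S).map (bd F o X) =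
      decSub F B e (S.map (bd F (fun u : {u // u ∈ B} => o u.1) X')) := by
  ext z
  rw [Submodule.mem_map, mem_decSub]
  constructor
  · rintro ⟨x, hx, rfl⟩
    obtain ⟨y, hy, rfl⟩ := (mem_decSub F B e _ x).1 hx
    exact ⟨_, fun i => Submodule.mem_map_of_mem (hy i), (dec_bd F o B e y).symm⟩
  · rintro ⟨y, hy, rfl⟩
    choose x hx hx' using hy
    refine ⟨decExt F B e x, (mem_decSub F B e _ _).2 ⟨x, hx, rfl⟩, ?_⟩
    rw [dec_bd]
    congr 1
    funext i
    exact hx' i

end decAbs

/-- The homology of a disjoint union of copies. -/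
theorem dec_hh (F : Type) [Field F] {V : Type} [Fintype V] [DecidableEq V] (adj : V → V → Prop)
    (o : V → ℕ) (B : Set V) [Fintype {u // u ∈ B}] (X : XSet V adj)
    (X' : XSet {u // u ∈ B} (fun a b => adj a.1 b.1)) {O : Type} [Fintype O] (e : O × X'.X ≃ X.X)
    (hρ : ∀ (u : {u // u ∈ B}) (i : O) (x : X'.X), X.ρ u.1 (e (i, x)) = e (i, X'.ρ u x))
    (A : Set V) (hA : A ⊆ B) (k : ℕ) :
    hh F o X A k = Fintype.card O *
      hh F (fun u : {u // u ∈ B} => o u.1) X' (Subtype.val ⁻¹' A) k := by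
  unfold hh
  rw [dec_Ch F B e adj X.ρ X'.ρ hρ A hA, dec_Ch F B e adj X.ρ X'.ρ hρ A hA, dec_ker, dec_map,
    finrank_decSub, finrank_decSub, Nat.mul_sub]

section decGrp

variable {W : Type} [Group W] (N H : Subgroup W)

/-- The map from the copies of `N' \ H` to `N \ W`. -/
def decFun [N.Normal] (p : (W ⧸ (N ⊔ H)) × Quotient (QuotientGroup.rightRel (N.subgroupOf H))) :
    Quotient (QuotientGroup.rightRel N) :=
  Quotient.map (fun h : H => p.1.out * (h : W)) (by
    intro a b hab
    have hab' : b * a⁻¹ ∈ N.subgroupOf H := QuotientGroup.rightRel_apply.1 hab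
    have h1 : (b : W) * (a : W)⁻¹ ∈ N := Subgroup.mem_subgroupOf.1 hab'
    refine QuotientGroup.rightRel_apply.2 ?_
    have h2 : p.1.out * (b : W) * (p.1.out * (a : W))⁻¹ =
      p.1.out * ((b : W) * (a : W)⁻¹) * (p.1.out)⁻¹ := by group
    rw [h2]
    exact (inferInstance : N.Normal).conj_mem _ h1 _) p.2

theorem decFun_mk [N.Normal] (q : W ⧸ (N ⊔ H)) (h : H) :
    decFun N H (q, Quotient.mk _ h) = Quotient.mk _ (q.out * (h : W)) := rfl

theorem decFun_bij [N.Normal] : Function.Bijective (decFun N H) := by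
  constructor
  · rintro ⟨q, ⟨h⟩⟩ ⟨q', ⟨h'⟩⟩ he
    have he' : Quotient.mk (QuotientGroup.rightRel N) (q.out * (h : W)) =
      Quotient.mk (QuotientGroup.rightRel N) (q'.out * (h' : W)) := he
    have h1 : q'.out * (h' : W) * (q.out * (h : W))⁻¹ ∈ N :=
      QuotientGroup.rightRel_apply.1 (Quotient.exact he')
    have h2 : q = q' := by
      rw [← QuotientGroup.out_eq' q, ← QuotientGroup.out_eq' q']
      rw [QuotientGroup.eq]
      have h3 : q.out⁻¹ * q'.out =
        (q.out⁻¹ * (q'.out * (h' : W) * (q.out * (h : W))⁻¹) * q.out⁻¹⁻¹) *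
          ((h : W) * (h' : W)⁻¹) := by group
      rw [h3]
      refine mul_mem (Subgroup.mem_sup_left ((inferInstance : N.Normal).conj_mem _ h1 _))
        (Subgroup.mem_sup_right (mul_mem h.2 (inv_mem h'.2)))
    subst h2
    have h4 : (h' : W) * (h : W)⁻¹ ∈ N := by
      have h5 : (h' : W) * (h : W)⁻¹ =
        q.out⁻¹ * (q.out * (h' : W) * (q.out * (h : W))⁻¹) * q.out⁻¹⁻¹ := by group
      rw [h5]
      exact (inferInstance : N.Normal).conj_mem _ h1 _
    have h6 : (Quotient.mk (QuotientGroup.rightRel (N.subgroupOf H)) h) =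
        Quotient.mk (QuotientGroup.rightRel (N.subgroupOf H)) h' :=
      Quotient.sound (QuotientGroup.rightRel_apply.2 (Subgroup.mem_subgroupOf.2 h4))
    exact Prod.ext rfl h6
  · rintro ⟨w⟩
    let q : W ⧸ (N ⊔ H) := QuotientGroup.mk w
    have h1 : w⁻¹ * q.out ∈ N ⊔ H := QuotientGroup.eq.1 (QuotientGroup.out_eq' q).symm
    obtain ⟨n, hn, h, hh, h2⟩ := Subgroup.mem_sup_of_normal_left.1 h1
    refine ⟨(q, Quotient.mk _ ⟨h⁻¹, inv_mem hh⟩), ?_⟩
    rw [decFun_mk]
    refine Quotient.sound (QuotientGroup.rightRel_apply.2 ?_)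
    show w * (q.out * h⁻¹)⁻¹ ∈ N
    have h3 : q.out = w * (n * h) := by
      rw [h2]
      group
    have h4 : w * (q.out * h⁻¹)⁻¹ = w * n⁻¹ * w⁻¹ := by
      rw [h3]
      group
    rw [h4]
    exact (inferInstance : N.Normal).conj_mem _ (inv_mem hn) _

end decGrp

/-- The chain of the special subgroup. -/
def decChain {V : Type} [DecidableEq V] {adj : V → V → Prop} {W : Type} [Group W]
    (R : RA V adj W) (B : Set V)
    (R' : RA {u // u ∈ B} (fun a b => adj a.1 b.1) (Subgroup.closure (R.s '' B)))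
    (hχ : ∀ w u, R'.χ w u = R.χ w.1 u.1) (c : NChain R) : NChain R' where
  N i := (c.N i).subgroupOf (Subgroup.closure (R.s '' B))
  normal i := haveI := c.normal i; inferInstance
  fin i := haveI := c.fin i; inferInstance
  anti := by
    intro i j hij w hw
    exact c.anti hij hw
  inf := by
    rw [eq_bot_iff]
    intro w hw
    rw [Subgroup.mem_iInf] at hw
    have h1 : (w : W) ∈ ⨅ i, c.N i := Subgroup.mem_iInf.2 fun i => hw i
    rw [c.inf, Subgroup.mem_bot] at h1
    rw [Subgroup.mem_bot]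
    exact Subtype.ext h1
  le := by
    intro i w hw
    have h1 : R.χ (w : W) = 1 := c.le i hw
    rw [MonoidHom.mem_ker]
    funext u
    rw [hχ, h1]
    rfl

/-- DEC -/
theorem dec : DECStmt := by
  intro V _ _ adj _ W _ R B R' hs hχ c
  refine ⟨decChain R B R' hχ c, ?_⟩
  intro F _ o A _ hA k i
  letI : Fintype {u // u ∈ B} := Fintype.ofFinite _
  let H : Subgroup W := Subgroup.closure (R.s '' B)
  let N : Subgroup W := c.N i
  haveI hN : N.Normal := c.normal i
  haveI hF : N.FiniteIndex := c.fin i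
  haveI hF' : (N ⊔ H).FiniteIndex := Subgroup.finiteIndex_of_le le_sup_left
  haveI : Finite (W ⧸ (N ⊔ H)) := Subgroup.finite_quotient_of_finiteIndex
  letI : Fintype (W ⧸ (N ⊔ H)) := Fintype.ofFinite _
  let e : (W ⧸ (N ⊔ H)) × Quotient (QuotientGroup.rightRel (N.subgroupOf H)) ≃
    Quotient (QuotientGroup.rightRel N) := Equiv.ofBijective _ (decFun_bij N H)
  have hidx : N.index = Fintype.card (W ⧸ (N ⊔ H)) * (N.subgroupOf H).index := by
    rw [Subgroup.index_eq_card, Subgroup.index_eq_card,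
      ← Nat.card_congr (QuotientGroup.quotientRightRelEquivQuotientLeftRel N),
      ← Nat.card_congr (QuotientGroup.quotientRightRelEquivQuotientLeftRel (N.subgroupOf H)),
      ← Nat.card_congr e, Nat.card_prod, Nat.card_eq_fintype_card]
  have h1 := dec_hh F adj o B (c.X i) ((decChain R B R' hχ c).X i) e (by
    rintro u q ⟨h⟩
    show Quotient.mk (QuotientGroup.rightRel N) (q.out * (h : W) * R.s u.1) =
      Quotient.mk (QuotientGroup.rightRel N) (q.out * ((h * R'.s u : H) : W))
    rw [Subgroup.coe_mul, hs, mul_assoc]) A hA k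
  rw [h1]
  have h2 : ((decChain R B R' hχ c).N i).index = (N.subgroupOf H).index := rfl
  have h3 : (c.N i).index = N.index := rfl
  rw [h2, h3, hidx]
  ring

end Pool.LU
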